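import Pool.Agent.MP_1e211b_nt.H73.Final

namespace Pool.Agent.Results.MP_1e211b_nt.Compressible

open Filter Pool.Agent.MP_1e211b_nt.H60 Pool.Agent.MP_60c1b5_an.H73

theorem result (α : ℚ) (hα : Odd α.den)
    (h : (∃ S : ℕ, ∃ᶠ n in atTop, ∃ i j : ℕ, i < j ∧ Parse ((List.range j).map (par α)) n S ∧
        ∀ t < 26 * n, par α (i + t) = par α (j + t)) ∨
      ∀ M : ℕ, ∃ S : ℕ, ∀ᶠ n in atTop, Parse ((List.range (M * n)).map (par α)) n S) :
    ∃ N p : ℕ, 0 < p ∧ ∀ n, N ≤ n → T^[n + p] α = T^[n] α ∧ par α (n + p) = par α n := by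
  rcases h with ⟨S, h⟩ | h
  · exact Pool.Agent.MP_1e211b_nt.H73.final α hα S h
  · obtain ⟨S, h⟩ := Pool.Agent.MP_1e211b_nt.H73.of_compressible α h
    exact Pool.Agent.MP_1e211b_nt.H73.final α hα S h

end Pool.Agent.Results.MP_1e211b_nt.Compressible
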