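import Pool.Agent.MP_1e211b_nt.H92.Final

namespace Pool.Agent.Results.MP_1e211b_nt.Superlinear

open Filter Pool.Agent.MP_1e211b_nt.H60

theorem result (α : ℚ) (hα : Odd α.den)
    (h : ∃ S : ℕ, ∃ᶠ m in atTop,
      {w : List ℕ | ∃ i, w = (List.range' i m).map (par α)}.encard ≤ (S * m : ℕ)) :
    ∃ N p : ℕ, 0 < p ∧ ∀ n, N ≤ n → T^[n + p] α = T^[n] α ∧ par α (n + p) = par α n := by
  obtain ⟨S, h⟩ := h
  exact Pool.Agent.MP_1e211b_nt.H92.superlinear α hα S h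

end Pool.Agent.Results.MP_1e211b_nt.Superlinear
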